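import Pool.Agent.Results.MP_4f977f_lc.UrysohnQuasiMinimal

/-!
# Quasi-minimal covers in the power of the Golomb space, for iterated Urysohn spaces

A strengthening of the starting result `UrysohnQuasiMinimal` (for every represented Urysohn space
`Y` the power `G` of the Golomb space has a `Y`-quasi-minimal point):

* Urysohn spaces are replaced by iterated Urysohn spaces. This class is closed under countable
  unions of subspaces, and a space `S` belongs to it if in every sequence of distinct points of `S`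
  some finite number of points have neighbourhoods whose closures meet in a set of the class (a
  transfinite iteration, with the empty set as starting point). It contains the Urysohn spaces and
  the spaces with finite Urysohn number.
* There is one point for countably many spaces simultaneously, relative to countably many sets `B`
  (the degree of the point joined with `B` is a quasi-minimal cover of the degree of `B`), and
  comeager many points, hence continuum many, have this property.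
* The power of the Golomb space is not an iterated Urysohn space.

Proof. Let `Φ` be an operator relative to `B` and let `f` be the partial map from `G` to `Y`
induced by it. By induction on the derivation of `S`, for comeager many `x` the value `f x`, if it
is defined and in `S`, is e-reducible to `B`. If `f` has infinitely many values in `S` on a
cylinder, in each subcylinder of which it has values in `S`, then all values on some subcylinder are
in the intersection of the closures of the given neighbourhoods, and the induction hypothesis can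
be applied. If there are finitely many values then each of them is isolated by a subcylinder on
which it is the only value that is taken densely, and it is enumerated from that cylinder and `B`.
-/

set_option autoImplicit false

namespace Pool.Agent.Results.MP_4f977f_lc.IteratedUrysohn

open Pool.Agent.H454R3.EDeg Pool.Agent.Helper446 Pool.Agent.Helper672.Blum TopologicalSpace Topology
open Pool.Agent.Results.MP_4f977f_lc.UrysohnQuasiMinimal Filter

universe u

/-! ### The definitions used in the statement -/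

/-- The iterated Urysohn subsets of a space `Y` with the topology `t`, the smallest class of subsets
with the following two closure properties. `union`: a set which is covered by countably many sets of
the class belongs to it. `step`: `S` belongs to the class if for every sequence `y` of distinct
points of `S` there are open neighbourhoods `U y i` of the points `y i` and a number `n y` such that
the intersection of the closures of `U y i` in the subspace `S`, over all `i < n y`, belongs to the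
class. (The second property applies to the finite sets, in particular to the empty set.) -/
inductive IterUrysohn {Y : Type u} (t : TopologicalSpace Y) : Set Y → Prop
  | union (S : Set Y) (T : ℕ → Set Y) (hS : S ⊆ ⋃ n, T n) (h : ∀ n, IterUrysohn t (T n)) :
      IterUrysohn t S
  | step (S : Set Y) (n : (ℕ → Y) → ℕ) (U : (ℕ → Y) → ℕ → Set Y)
      (hU : ∀ y : ℕ → Y, Function.Injective y → (∀ i, y i ∈ S) →
        ∀ i, IsOpen[t] (U y i) ∧ y i ∈ U y i)
      (h : ∀ y : ℕ → Y, Function.Injective y → (∀ i, y i ∈ S) →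
        IterUrysohn t (S ∩ ⋂ i ∈ {i | i < n y}, closure[t] (U y i ∩ S))) :
      IterUrysohn t S

/-- `A` is a `Y`-quasi-minimal cover of `B`, for the space `Y` with the subbasis `γ`: it is not
e-reducible to `B`, and every point of `Y` whose coded neighbourhood filter is e-reducible to the
join of `A` and `B` has a coded neighbourhood filter which is e-reducible to `B`. -/
def QuasiMinimalOver {Y : Type u} (γ : ℕ → Set Y) (B A : Set ℕ) : Prop :=
  ¬ ERed A B ∧ ∀ y : Y, ERed (Nbase γ y) (join A B) → ERed (Nbase γ y) B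

/-! ### The values of the partial map on a cylinder -/

/-- the domain of the partial map restricted to the points with a value in `S` -/
def DomS {Y : Type u} (γ : ℕ → Set Y) (S : Set Y) (Φ : Set (ℕ × ℕ)) : Set (ℕ → ℕ) :=
  {w | ∃ y ∈ S, Nbase γ y = app Φ (Nbase sub w)}

/-- values on a suitable cylinder are in the closure -/
theorem key {Y : Type u} (γ : ℕ → Set Y) (S : Set Y) (Φ : Set (ℕ × ℕ)) (x : ℕ → ℕ) (k : ℕ)
    (hd : ∀ z ∈ Cyl x k, ∀ l, (Cyl z l ∩ DomS γ S Φ).Nonempty)
    (w₀ : ℕ → ℕ) (hw₀ : w₀ ∈ Cyl x k) (m₀ : ℕ) (b₀ : ℕ → ℕ) (hb₀ : ∀ i, 1 ≤ b₀ i)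
    (c₀ : ℕ → ℕ) (hdvd : ∀ i, b₀ i ∣ c₀ i) (V₀ : Set Y)
    (hV₀ : ∀ u ∈ Box w₀ m₀ b₀, ∀ s : Y, Nbase γ s = app Φ (Nbase sub u) → s ∈ V₀)
    (v : ℕ → ℕ) (hvx : v ∈ Cyl x k) (hv : ∀ i, k ≤ i → i < m₀ → v i + 1 = c₀ i)
    (t : Y) (ht : Nbase γ t = app Φ (Nbase sub v)) :
    t ∈ closure[generateFrom (Set.range γ)] (V₀ ∩ S) := by
  let _ : TopologicalSpace Y := generateFrom (Set.range γ)
  rw [mem_closure_iff]
  intro O hO htO
  obtain ⟨n, c, hc, h2⟩ := cont γ Φ hO htO ht
  have h3 : ∀ i, ∃ a : ℕ, (i < k → a = x i) ∧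
      (k ≤ i → i < m₀ → a + 1 ≡ w₀ i + 1 [MOD (b₀ i)] ∧ a + 1 ≡ v i + 1 [MOD (c i)]) ∧
      (k ≤ i → m₀ ≤ i → a = v i) := by
    intro i
    rcases lt_or_ge i k with hi | hi
    · exact ⟨x i, fun _ => rfl, fun h => absurd h (not_le.2 hi), fun h => absurd h (not_le.2 hi)⟩
    · rcases lt_or_ge i m₀ with hi' | hi'
      · have hcop : Nat.Coprime (b₀ i) (c i) := by
          have h4 := (hc i).2
          rw [hv i hi hi'] at h4
          exact Nat.Coprime.coprime_dvd_left (hdvd i) h4
        obtain ⟨a, ha1, ha2⟩ := Nat.chineseRemainder hcop (w₀ i + 1) (v i + 1)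
        refine ⟨a + b₀ i * c i - 1, fun h => absurd h (not_lt.2 hi), fun _ _ => ?_,
          fun _ h => absurd h (not_le.2 hi')⟩
        have h5 : a + b₀ i * c i - 1 + 1 = a + b₀ i * c i := by
          have : 1 ≤ b₀ i * c i := Nat.mul_pos (hb₀ i) (hc i).1
          omega
        rw [h5]
        constructor
        · refine Nat.ModEq.trans ?_ ha1
          have h6 : b₀ i * c i ≡ 0 [MOD (b₀ i)] := (Nat.modEq_zero_iff_dvd).2 (dvd_mul_right _ _)
          have h7 := Nat.ModEq.add_left a h6
          rwa [Nat.add_zero] at h7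
        · refine Nat.ModEq.trans ?_ ha2
          have h6 : b₀ i * c i ≡ 0 [MOD (c i)] := (Nat.modEq_zero_iff_dvd).2 (dvd_mul_left _ _)
          have h7 := Nat.ModEq.add_left a h6
          rwa [Nat.add_zero] at h7
      · exact ⟨v i, fun h => absurd h (not_lt.2 hi), fun _ h => absurd h (not_lt.2 hi'),
          fun _ _ => rfl⟩
  choose a ha1 ha2 ha3 using h3
  have haC : a ∈ Cyl x k := fun i hi => ha1 i hi
  obtain ⟨u, hu, s, hsS, hs⟩ := hd a haC (max k (max m₀ n))
  have hub : u ∈ Box w₀ m₀ b₀ := by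
    intro i hi
    rw [hu i (by omega)]
    rcases lt_or_ge i k with hik | hik
    · rw [ha1 i hik, hw₀ i hik]
    · exact (ha2 i hik hi).1
  have huc : u ∈ Box v n c := by
    intro i hi
    rw [hu i (by omega)]
    rcases lt_or_ge i k with hik | hik
    · rw [ha1 i hik, hvx i hik]
    · rcases lt_or_ge i m₀ with hi' | hi'
      · exact (ha2 i hik hi').2
      · rw [ha3 i hik hi']
  exact ⟨s, h2 u huc s hs, hV₀ u hub s hs, hsS⟩

/-- finitely many values: the values on a subcylinder are in the closures -/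
theorem key_many {Y : Type u} (γ : ℕ → Set Y) (S : Set Y) (Φ : Set (ℕ × ℕ)) (x : ℕ → ℕ) (k : ℕ)
    (hd : ∀ z ∈ Cyl x k, ∀ l, (Cyl z l ∩ DomS γ S Φ).Nonempty)
    (w : ℕ → ℕ → ℕ) (hw : ∀ j, w j ∈ Cyl x k) (y : ℕ → Y)
    (hy : ∀ j, Nbase γ (y j) = app Φ (Nbase sub (w j)))
    (U : ℕ → Set Y) (hU : ∀ j, IsOpen[generateFrom (Set.range γ)] (U j) ∧ y j ∈ U j) (n : ℕ) :
    ∃ z ∈ Cyl x k, ∃ l, k ≤ l ∧ ∀ v ∈ Cyl z l, ∀ t : Y, Nbase γ t = app Φ (Nbase sub v) →
      t ∈ ⋂ j ∈ {j | j < n}, closure[generateFrom (Set.range γ)] (U j ∩ S) := by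
  have h1 : ∀ j, ∃ m b, Adm (w j) b ∧ ∀ v ∈ Box (w j) m b, ∀ z : Y,
      Nbase γ z = app Φ (Nbase sub v) → z ∈ U j := fun j =>
    cont γ Φ (hU j).1 (hU j).2 (hy j)
  choose m b hb hc using h1
  let c : ℕ → ℕ := fun i => ∏ j ∈ Finset.range n, b j i
  have hcpos : ∀ i, 1 ≤ c i := fun i => Nat.one_le_iff_ne_zero.2
    (Finset.prod_ne_zero_iff.2 fun j _ => Nat.one_le_iff_ne_zero.1 (hb j i).1)
  let z : ℕ → ℕ := fun i => if i < k then x i else c i - 1
  have hz : z ∈ Cyl x k := fun i hi => by simp [z, hi]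
  have hzb : ∀ i, k ≤ i → z i + 1 = c i := by
    intro i hi
    have h2 := hcpos i
    simp only [z, if_neg (not_lt.2 hi)]
    omega
  refine ⟨z, hz, max k ((Finset.range n).sup m), le_max_left _ _, fun v hv t ht => ?_⟩
  rw [Set.mem_iInter₂]
  intro j hj
  have hj' : j ∈ Finset.range n := Finset.mem_range.2 hj
  have hmj : m j ≤ (Finset.range n).sup m := Finset.le_sup hj'
  refine key γ S Φ x k hd (w j) (hw j) (m j) (b j) (fun i => (hb j i).1) c
    (fun i => Finset.dvd_prod_of_mem (fun j => b j i) hj') (U j) (hc j) v ?_ ?_ t ht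
  · intro i hi
    rw [hv i (by omega), hz i hi]
  · intro i hi hi'
    rw [hv i (by omega), hzb i hi]

/-- the set enumerated from the data compatible with a cylinder -/
def Enum (Φ : Set (ℕ × ℕ)) (x : ℕ → ℕ) (k : ℕ) : Set ℕ :=
  {n | ∃ u : ℕ, (n, u) ∈ Φ ∧ ∃ v ∈ Cyl x k, D u ⊆ Nbase sub v}

/-- if the partial map is constant on a cylinder and densely defined, then the value is the set
enumerated from the cylinder -/
theorem value_eq {Y : Type u} (γ : ℕ → Set Y) (S : Set Y) (Φ : Set (ℕ × ℕ))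
    (x : ℕ → ℕ) (k : ℕ) (hd : ∀ z ∈ Cyl x k, ∀ l, (Cyl z l ∩ DomS γ S Φ).Nonempty) {y : Y}
    (hc : ∀ w ∈ Cyl x k, ∀ y' ∈ S, Nbase γ y' = app Φ (Nbase sub w) → y' = y)
    {w : ℕ → ℕ} (hw : w ∈ Cyl x k) (hy : Nbase γ y = app Φ (Nbase sub w)) :
    Nbase γ y = Enum Φ x k := by
  ext n
  constructor
  · intro hn
    rw [hy] at hn
    obtain ⟨u, h2, h3⟩ := hn
    exact ⟨u, h2, w, hw, h3⟩
  · rintro ⟨u, h2, v, hv, h3⟩
    obtain ⟨m, b, hb, h4⟩ := exists_box (isOpen_D sub u) (x := v) h3
    obtain ⟨v', hv', y', hyS, hy'⟩ := hd v hv (max k m)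
    have h5 : v' ∈ Cyl x k := fun i hi => by rw [hv' i (by omega), hv i hi]
    have h6 : y' = y := hc v' h5 y' hyS hy'
    rw [← h6, hy']
    refine ⟨u, h2, h4 ?_⟩
    intro i hi
    rw [hv' i (by omega)]

/-! ### Category -/

theorem isOpen_cyl (x : ℕ → ℕ) (k : ℕ) : IsOpen (Cyl x k) := by
  have h : Cyl x k = PiNat.cylinder (E := fun _ => ℕ) x k := rfl
  rw [h]
  exact PiNat.isOpen_cylinder _ x k

theorem exists_cyl {O : Set (ℕ → ℕ)} (hO : IsOpen O) {x : ℕ → ℕ} (hx : x ∈ O) :
    ∃ k, Cyl x k ⊆ O := by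
  obtain ⟨s, ⟨⟨y, n, rfl⟩, hxs, hsO⟩⟩ :=
    (PiNat.isTopologicalBasis_cylinders (E := fun _ => ℕ)).isOpen_iff.1 hO x hx
  refine ⟨n, fun w hw => hsO ?_⟩
  intro i hi
  rw [hw i hi]
  exact hxs i hi

/-- a set which is comeager in a subcylinder of every cylinder is comeager -/
theorem residual_of_local {A : Set (ℕ → ℕ)}
    (h : ∀ x k, ∃ z ∈ Cyl x k, ∃ l, k ≤ l ∧ ∃ R ∈ residual (ℕ → ℕ), R ∩ Cyl z l ⊆ A) :
    A ∈ residual (ℕ → ℕ) := by
  choose z hz l hl R hR hRA using h
  let O : Set (ℕ → ℕ) := ⋃ s : List ℕ, Cyl (z (pt s) s.length) (l (pt s) s.length)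
  have hO : IsOpen O := isOpen_iUnion fun s => isOpen_cyl _ _
  have hOd : Dense O := by
    rw [dense_iff_inter_open]
    rintro W hW ⟨x, hx⟩
    obtain ⟨k, hk⟩ := exists_cyl hW hx
    have hlt : ∀ i, i < k → pt (List.ofFn fun j : Fin k => x j) i = x i := by
      intro i hi
      simp only [pt]
      rw [List.getD_eq_getElem _ _ (by simpa using hi)]
      simp
    have hlen : (List.ofFn fun j : Fin k => x j).length = k := by simp
    refine ⟨z (pt (List.ofFn fun j : Fin k => x j)) (List.ofFn fun j : Fin k => x j).length,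
      hk ?_, ?_⟩
    · intro i hi
      rw [hz _ _ i (by rw [hlen]; exact hi), hlt i hi]
    · exact Set.mem_iUnion.2 ⟨_, fun i _ => rfl⟩
  have h1 : O ∈ residual (ℕ → ℕ) := residual_of_dense_open hO hOd
  have h2 : (⋂ s : List ℕ, R (pt s) s.length) ∈ residual (ℕ → ℕ) :=
    countable_iInter_mem.2 fun s => hR _ _
  refine mem_of_superset (inter_mem h1 h2) ?_
  rintro w ⟨hw1, hw2⟩
  obtain ⟨s, hs⟩ := Set.mem_iUnion.1 hw1
  exact hRA _ _ ⟨Set.mem_iInter.1 hw2 s, hs⟩

/-- the good points for a set of values -/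
def Good {Y : Type u} (γ : ℕ → Set Y) (Φ : Set (ℕ × ℕ)) (P : Set ℕ → Prop) (S : Set Y) :
    Set (ℕ → ℕ) :=
  {w | ∀ y ∈ S, Nbase γ y = app Φ (Nbase sub w) → P (Nbase γ y)}

theorem good_singleton {Y : Type u} (γ : ℕ → Set Y) (Φ : Set (ℕ × ℕ)) (P : Set ℕ → Prop)
    (hP : ∀ x k, P (Enum Φ x k)) (y : Y) : Good γ Φ P {y} ∈ residual (ℕ → ℕ) := by
  refine residual_of_local fun x k => ?_
  by_cases hd : ∀ z ∈ Cyl x k, ∀ l, (Cyl z l ∩ DomS γ {y} Φ).Nonempty
  · refine ⟨x, fun _ _ => rfl, k, le_rfl, Set.univ, univ_mem, ?_⟩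
    rintro w ⟨-, hw⟩ y' hy' h
    rw [Set.mem_singleton_iff] at hy'
    subst hy'
    have h1 := value_eq γ {y'} Φ x k hd (y := y') (fun w _ y'' h2 _ => h2) hw h
    rw [h1]
    exact hP x k
  · push Not at hd
    obtain ⟨z, hz, l, hl⟩ := hd
    refine ⟨z, hz, max k l, le_max_left _ _, Set.univ, univ_mem, ?_⟩
    rintro w ⟨-, hw⟩ y' hy' h
    exfalso
    have h2 : w ∈ Cyl z l ∩ DomS γ {y} Φ := ⟨fun i hi => hw i (lt_max_of_lt_right hi), y', hy', h⟩
    rw [hl] at h2
    exact h2

theorem good_residual {Y : Type u} (γ : ℕ → Set Y) (Φ : Set (ℕ × ℕ)) (P : Set ℕ → Prop)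
    (hP : ∀ x k, P (Enum Φ x k)) {S : Set Y} (hS : IterUrysohn (generateFrom (Set.range γ)) S) :
    Good γ Φ P S ∈ residual (ℕ → ℕ) := by
  induction hS with
  | union S T hS _ ih =>
    have h1 : (⋂ n, Good γ Φ P (T n)) ∈ residual (ℕ → ℕ) := countable_iInter_mem.2 ih
    refine mem_of_superset h1 fun w hw y hy h => ?_
    obtain ⟨n, hn⟩ := Set.mem_iUnion.1 (hS hy)
    exact Set.mem_iInter.1 hw n y hn h
  | step S n U hU _ ih =>
    refine residual_of_local fun x k => ?_
    by_cases hd : ∀ z ∈ Cyl x k, ∀ l, (Cyl z l ∩ DomS γ S Φ).Nonempty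
    · by_cases hfin : {y : Y | y ∈ S ∧ ∃ w ∈ Cyl x k, Nbase γ y = app Φ (Nbase sub w)}.Finite
      · -- finitely many values
        have h1 : (⋂ y ∈ {y : Y | y ∈ S ∧ ∃ w ∈ Cyl x k, Nbase γ y = app Φ (Nbase sub w)},
            Good γ Φ P {y}) ∈ residual (ℕ → ℕ) :=
          (countable_bInter_mem hfin.countable).2 fun y _ => good_singleton γ Φ P hP y
        refine ⟨x, fun _ _ => rfl, k, le_rfl, _, h1, ?_⟩
        rintro w ⟨hw1, hw2⟩ y hy h
        exact Set.mem_iInter₂.1 hw1 y ⟨hy, w, hw2, h⟩ y rfl h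
      · have hinf : Set.Infinite {y : Y | y ∈ S ∧ ∃ w ∈ Cyl x k,
            Nbase γ y = app Φ (Nbase sub w)} := hfin
        let e := hinf.natEmbedding
        let y : ℕ → Y := fun i => (e i : Y)
        have hyinj : Function.Injective y := fun i j hij => e.injective (Subtype.ext hij)
        have hyS : ∀ i, y i ∈ S := fun i => (e i).2.1
        have hyw : ∀ i, ∃ w ∈ Cyl x k, Nbase γ (y i) = app Φ (Nbase sub w) := fun i => (e i).2.2
        choose w hw hyw' using hyw
        obtain ⟨z, hz, l, hl, hcl⟩ := key_many γ S Φ x k hd w hw y hyw' (U y)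
          (hU y hyinj hyS) (n y)
        refine ⟨z, hz, l, hl, _, ih y hyinj hyS, ?_⟩
        rintro v ⟨hv1, hv2⟩ t ht h
        exact hv1 t ⟨ht, hcl v hv2 t h⟩ h
    · push Not at hd
      obtain ⟨z, hz, l, hl⟩ := hd
      refine ⟨z, hz, max k l, le_max_left _ _, Set.univ, univ_mem, ?_⟩
      rintro w ⟨-, hw⟩ y' hy' h
      exfalso
      have h2 : w ∈ Cyl z l ∩ DomS γ S Φ := ⟨fun i hi => hw i (lt_max_of_lt_right hi), y', hy', h⟩
      rw [hl] at h2
      exact h2

/-! ### Relativization -/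

/-- every finite set has a canonical index -/
theorem exists_index {F : Set ℕ} (hF : F.Finite) : ∃ a, D a = F := by
  induction F, hF using Set.Finite.induction_on with
  | empty => exact ⟨0, by ext i; simp [D]⟩
  | @insert i F _ _ ih =>
    obtain ⟨a, rfl⟩ := ih
    refine ⟨2 ^ i ||| a, ?_⟩
    ext j
    simp only [D, Set.mem_ofPred_eq, Nat.testBit_or, Nat.testBit_two_pow, Bool.or_eq_true,
      decide_eq_true_eq, Set.mem_insert_iff]
    constructor
    · rintro (h | h)
      · exact Or.inl h.symm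
      · exact Or.inr h
    · rintro (h | h)
      · exact Or.inl h.symm
      · exact Or.inr h

theorem join_mono {A A' B B' : Set ℕ} (h : A ⊆ A') (h' : B ⊆ B') : join A B ⊆ join A' B' := by
  rintro n (⟨m, hm, e⟩ | ⟨m, hm, e⟩)
  · exact Or.inl ⟨m, h hm, e⟩
  · exact Or.inr ⟨m, h' hm, e⟩

/-- finite subsets of a join -/
theorem sub_join {u : ℕ} {A B : Set ℕ} (h : D u ⊆ join A B) :
    ∃ a b, D a ⊆ A ∧ D b ⊆ B ∧ D u ⊆ join (D a) (D b) := by
  have hfu : (D u).Finite := (Set.finite_Iio u).subset fun i hi => D_bound hi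
  have hf1 : {i | 2 * i ∈ D u}.Finite :=
    hfu.preimage (f := fun i => 2 * i) (fun i _ j _ hij => by
      have : 2 * i = 2 * j := hij
      omega)
  have hf2 : {i | 2 * i + 1 ∈ D u}.Finite :=
    hfu.preimage (f := fun i => 2 * i + 1) (fun i _ j _ hij => by
      have : 2 * i + 1 = 2 * j + 1 := hij
      omega)
  obtain ⟨a, ha⟩ := exists_index hf1
  obtain ⟨b, hb⟩ := exists_index hf2
  refine ⟨a, b, ?_, ?_, ?_⟩
  · rw [ha]
    intro i hi
    exact join_even.1 (h hi)
  · rw [hb]
    intro i hi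
    exact join_odd.1 (h hi)
  · rw [ha, hb]
    intro q hq
    rcases h hq with ⟨m, -, rfl⟩ | ⟨m, -, rfl⟩
    · exact Or.inl ⟨m, hq, rfl⟩
    · exact Or.inr ⟨m, hq, rfl⟩

/-- the operator with the second oracle fixed -/
def relOp (Φ : Set (ℕ × ℕ)) (B : Set ℕ) : Set (ℕ × ℕ) :=
  {p | ∃ u b, (p.1, u) ∈ Φ ∧ D u ⊆ join (D p.2) (D b) ∧ D b ⊆ B}

theorem app_relOp (Φ : Set (ℕ × ℕ)) (A B : Set ℕ) : app (relOp Φ B) A = app Φ (join A B) := by
  ext n
  constructor
  · rintro ⟨a, ⟨u, b, h1, h2, h3⟩, h4⟩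
    exact ⟨u, h1, h2.trans (join_mono h4 h3)⟩
  · rintro ⟨u, h1, h2⟩
    obtain ⟨a, b, h3, h4, h5⟩ := sub_join h2
    exact ⟨a, ⟨u, b, h1, h5, h4⟩, h3⟩

/-- it is decidable whether one finite set is contained in the join of two others -/
theorem re_subJoin : REPred fun p : ℕ × ℕ × ℕ => D p.1 ⊆ join (D p.2.1) (D p.2.2) := by
  have h1 : REPred fun p : ℕ × ℕ × ℕ => ∀ q < p.1, (p.1.testBit q = false ∨
      ((q % 2 = 0 ∧ p.2.1.testBit (q / 2) = true) ∨
        (q % 2 = 1 ∧ p.2.2.testBit (q / 2) = true))) := by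
    refine RE.all_lt (p := fun (p : ℕ × ℕ × ℕ) (q : ℕ) => (p.1.testBit q = false ∨
      ((q % 2 = 0 ∧ p.2.1.testBit (q / 2) = true) ∨
        (q % 2 = 1 ∧ p.2.2.testBit (q / 2) = true)))) ?_ Computable.fst
    have hu : Computable fun r : (ℕ × ℕ × ℕ) × ℕ => r.1.1 := Computable.fst.comp Computable.fst
    have ha : Computable fun r : (ℕ × ℕ × ℕ) × ℕ => r.1.2.1 :=
      Computable.fst.comp (Computable.snd.comp Computable.fst)
    have hb : Computable fun r : (ℕ × ℕ × ℕ) × ℕ => r.1.2.2 :=
      Computable.snd.comp (Computable.snd.comp Computable.fst)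
    have hq : Computable fun r : (ℕ × ℕ × ℕ) × ℕ => r.2 := Computable.snd
    refine RE.or ?_ (RE.or (RE.and ?_ ?_) (RE.and ?_ ?_))
    · exact RE.eq (comp_testBit hu hq) (Computable.const false)
    · exact RE.eq (comp_mod hq (Computable.const 2)) (Computable.const 0)
    · exact RE.eq (comp_testBit ha (comp_div hq (Computable.const 2))) (Computable.const true)
    · exact RE.eq (comp_mod hq (Computable.const 2)) (Computable.const 1)
    · exact RE.eq (comp_testBit hb (comp_div hq (Computable.const 2))) (Computable.const true)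
  refine h1.of_eq fun p => ?_
  constructor
  · intro h q hq
    rcases h q (D_bound hq) with h2 | ⟨h2, h3⟩ | ⟨h2, h3⟩
    · have h4 : p.1.testBit q = true := hq
      rw [h2] at h4
      exact absurd h4 (by simp)
    · exact Or.inl ⟨q / 2, h3, by omega⟩
    · exact Or.inr ⟨q / 2, h3, by omega⟩
  · intro h q _
    by_cases hb : p.1.testBit q = true
    · right
      rcases h hb with ⟨m, hm, rfl⟩ | ⟨m, hm, rfl⟩
      · left
        refine ⟨by omega, ?_⟩
        have h2 : 2 * m / 2 = m := by omega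
        rw [h2]
        exact hm
      · right
        refine ⟨by omega, ?_⟩
        have h2 : (2 * m + 1) / 2 = m := by omega
        rw [h2]
        exact hm
    · left
      simpa using hb

theorem ered_enum {Φ : Set (ℕ × ℕ)} (hΦ : REPred fun p => p ∈ Φ) (B : Set ℕ) (x : ℕ → ℕ) (k : ℕ) :
    ERed (Enum (relOp Φ B) x k) B := by
  refine ⟨{p | ∃ a u : ℕ, (p.1, u) ∈ Φ ∧ D u ⊆ join (D a) (D p.2) ∧
    ∃ v ∈ Cyl x k, D a ⊆ Nbase sub v}, ?_, ?_⟩
  · refine RE.exN (p := fun (p : ℕ × ℕ) (a : ℕ) => ∃ u : ℕ, (p.1, u) ∈ Φ ∧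
      D u ⊆ join (D a) (D p.2) ∧ ∃ v ∈ Cyl x k, D a ⊆ Nbase sub v) ?_
    refine RE.exN (p := fun (r : (ℕ × ℕ) × ℕ) (u : ℕ) => (r.1.1, u) ∈ Φ ∧
      D u ⊆ join (D r.2) (D r.1.2) ∧ ∃ v ∈ Cyl x k, D r.2 ⊆ Nbase sub v) ?_
    refine RE.and ?_ (RE.and ?_ ?_)
    · exact RE.comp (p := fun p : ℕ × ℕ => p ∈ Φ)
        (f := fun z : ((ℕ × ℕ) × ℕ) × ℕ => (z.1.1.1, z.2)) hΦ
        ((Computable.fst.comp (Computable.fst.comp Computable.fst)).pair Computable.snd)
    · exact RE.comp (p := fun p : ℕ × ℕ × ℕ => D p.1 ⊆ join (D p.2.1) (D p.2.2))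
        (f := fun z : ((ℕ × ℕ) × ℕ) × ℕ => (z.2, z.1.2, z.1.1.2)) re_subJoin
        (Computable.snd.pair ((Computable.snd.comp Computable.fst).pair
          (Computable.snd.comp (Computable.fst.comp Computable.fst))))
    · exact RE.comp (p := fun a : ℕ => ∃ v ∈ Cyl x k, D a ⊆ Nbase sub v)
        (f := fun z : ((ℕ × ℕ) × ℕ) × ℕ => z.1.2) (re_ext x k)
        (Computable.snd.comp Computable.fst)
  · ext n
    constructor
    · rintro ⟨a, ⟨u, b, h1, h2, h3⟩, h4⟩
      exact ⟨b, ⟨a, u, h1, h2, h4⟩, h3⟩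
    · rintro ⟨b, ⟨a, u, h1, h2, h4⟩, h3⟩
      exact ⟨a, ⟨u, b, h1, h2, h3⟩, h4⟩

/-- countable sets are meager -/
theorem residual_compl_countable {A : Set (ℕ → ℕ)} (hA : A.Countable) :
    Aᶜ ∈ residual (ℕ → ℕ) := by
  have h1 : (⋂ x ∈ A, ({x}ᶜ : Set (ℕ → ℕ))) ∈ residual (ℕ → ℕ) := by
    refine (countable_bInter_mem hA).2 fun x _ => residual_of_local fun y k => ?_
    refine ⟨fun i => if i = k then x k + 1 else y i, fun i hi => ?_, k + 1, Nat.le_succ k,
      Set.univ, univ_mem, ?_⟩
    · simp only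
      rw [if_neg (by omega)]
    · rintro w ⟨-, hw⟩ h
      rw [Set.mem_singleton_iff] at h
      subst h
      have h4 := hw k (Nat.lt_succ_self _)
      simp only [if_true] at h4
      omega
  refine mem_of_superset h1 fun w hw hwA => ?_
  exact Set.mem_iInter₂.1 hw w hwA rfl

theorem nonred_residual (B : Set ℕ) : {x : ℕ → ℕ | ¬ ERed (Nbase sub x) B} ∈ residual (ℕ → ℕ) := by
  have hA : {x : ℕ → ℕ | ERed (Nbase sub x) B}.Countable := by
    have h1 : {x : ℕ → ℕ | ERed (Nbase sub x) B} ⊆
        ⋃ e : ℕ, {x : ℕ → ℕ | Nbase sub x = app (Op e) B} := fun x hx => by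
      obtain ⟨e, he⟩ := ered_iff.1 hx
      exact Set.mem_iUnion.2 ⟨e, he⟩
    refine Set.Countable.mono h1 (Set.countable_iUnion fun e => Set.Subsingleton.countable ?_)
    intro x hx y hy
    exact sub_injective (Eq.trans hx (Eq.symm hy))
  exact residual_compl_countable hA

/-- the residual form for one space and one set -/
theorem over_residual {Y : Type u} (γ : ℕ → Set Y)
    (hY : IterUrysohn (generateFrom (Set.range γ)) Set.univ) (B : Set ℕ) :
    {x : ℕ → ℕ | QuasiMinimalOver γ B (Nbase sub x)} ∈ residual (ℕ → ℕ) := by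
  have h1 : (⋂ e : ℕ, Good γ (relOp (Op e) B) (fun A => ERed A B) Set.univ) ∈
      residual (ℕ → ℕ) :=
    countable_iInter_mem.2 fun e => good_residual γ _ _ (fun x k => ered_enum (op_re e) B x k) hY
  refine mem_of_superset (inter_mem (nonred_residual B) h1) ?_
  rintro x ⟨h2, h3⟩
  refine ⟨h2, fun y hy => ?_⟩
  obtain ⟨e, he⟩ := ered_iff.1 hy
  refine Set.mem_iInter.1 h3 e y (Set.mem_univ y) ?_
  rw [app_relOp]
  exact he

/-! ### Urysohn spaces -/

/-- a space in which any `n` distinct points have neighbourhoods whose closures have no common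
point is iterated Urysohn -/
theorem iterUrysohn_of_number {Y : Type u} (t : TopologicalSpace Y) (n : ℕ)
    (h : ∀ y : Fin n → Y, Function.Injective y → ∃ U : Fin n → Set Y,
      (∀ i, IsOpen[t] (U i) ∧ y i ∈ U i) ∧ ⋂ i, closure[t] (U i) = ∅) (S : Set Y) :
    IterUrysohn t S := by
  classical
  have h' : ∀ y : ℕ → Y, ∃ U : ℕ → Set Y, Function.Injective y →
      (∀ i, IsOpen[t] (U i) ∧ y i ∈ U i) ∧ ⋂ i ∈ {i | i < n}, closure[t] (U i) = ∅ := by
    intro y
    by_cases hy : Function.Injective y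
    · obtain ⟨U, hU1, hU2⟩ := h (fun i => y i) (hy.comp Fin.val_injective)
      refine ⟨fun i => if hi : i < n then U ⟨i, hi⟩ else Set.univ, fun _ => ⟨fun i => ?_, ?_⟩⟩
      · by_cases hi : i < n
        · simp only [dif_pos hi]
          exact hU1 ⟨i, hi⟩
        · simp only [dif_neg hi]
          exact ⟨@isOpen_univ Y t, Set.mem_univ _⟩
      · rw [Set.eq_empty_iff_forall_notMem] at hU2 ⊢
        intro z hz
        refine hU2 z (Set.mem_iInter.2 fun i => ?_)
        have h1 := Set.mem_iInter₂.1 hz i.1 i.2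
        simpa only [dif_pos i.2] using h1
    · exact ⟨fun _ => Set.univ, fun h => absurd h hy⟩
  choose U hU using h'
  have hempty : IterUrysohn t (∅ : Set Y) := by
    refine IterUrysohn.step ∅ (fun _ => 0) (fun _ _ => Set.univ) ?_ ?_
    · intro y _ hy
      exact absurd (hy 0) (Set.notMem_empty _)
    · intro y _ hy
      exact absurd (hy 0) (Set.notMem_empty _)
  refine IterUrysohn.step S (fun _ => n) U (fun y hy _ => (hU y hy).1) fun y hy _ => ?_
  refine IterUrysohn.union _ (fun _ => ∅) ?_ (fun _ => hempty)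
  rintro z ⟨-, hz⟩
  exfalso
  have h1 : z ∈ ⋂ i ∈ {i | i < n}, closure[t] (U y i) := by
    refine Set.mem_iInter₂.2 fun i hi => ?_
    exact @closure_mono Y t _ _ Set.inter_subset_left _ (Set.mem_iInter₂.1 hz i hi)
  rw [(hU y hy).2] at h1
  exact h1

theorem iterUrysohn_of_t25 {Y : Type u} (t : TopologicalSpace Y) (hY : @T25Space Y t) :
    IterUrysohn t Set.univ := by
  refine iterUrysohn_of_number t 2 (fun y hy => ?_) Set.univ
  have hne : y 0 ≠ y 1 := fun h => absurd (hy h) (by decide)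
  obtain ⟨V, hyV, hV, V', hyV', hV', hdis⟩ := exists_open_nhds_disjoint_closure hne
  refine ⟨fun i => if i = 0 then V else V', fun i => ?_, ?_⟩
  · fin_cases i
    · exact ⟨hV, hyV⟩
    · exact ⟨hV', hyV'⟩
  · rw [Set.eq_empty_iff_forall_notMem]
    intro z hz
    have h0 := Set.mem_iInter.1 hz 0
    have h1 := Set.mem_iInter.1 hz 1
    exact Set.disjoint_left.1 hdis h0 h1

/-- a comeager set has the cardinality of the continuum -/
theorem card_residual {A : Set (ℕ → ℕ)} (hA : A ∈ residual (ℕ → ℕ)) :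
    Cardinal.mk A = Cardinal.continuum := by
  have hcard : Cardinal.mk (ℕ → ℕ) = Cardinal.continuum := by
    simp
  apply le_antisymm
  · rw [← hcard]
    exact Cardinal.mk_set_le A
  · obtain ⟨R, hRA, hR, hRd⟩ := mem_residual.1 hA
    have hmeas : MeasurableSet R := hR.measurableSet
    have hRr : R ∈ residual (ℕ → ℕ) := residual_of_dense_Gδ hR hRd
    have hunc : ¬ Countable R := by
      intro hc
      have h1 : Rᶜ ∈ residual (ℕ → ℕ) := residual_compl_countable (Set.countable_coe_iff.1 hc)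
      have h2 : R ∩ Rᶜ ∈ residual (ℕ → ℕ) := inter_mem hRr h1
      rw [Set.inter_compl_self] at h2
      obtain ⟨x, hx⟩ := (dense_of_mem_residual h2).nonempty
      exact hx
    have hsb : StandardBorelSpace R := hmeas.standardBorel
    have e := (PolishSpace.measurableEquivNatBoolOfNotCountable hunc).toEquiv
    have h3 : Cardinal.mk R = Cardinal.continuum := by
      have h4 : Cardinal.mk R = Cardinal.mk (ℕ → Bool) := Cardinal.mk_congr e
      rw [h4]
      simp
    rw [← h3]
    exact Cardinal.mk_le_mk_of_subset hRA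

theorem ce_iff {A : Set ℕ} : ERed A ∅ ↔ CE A := by
  constructor
  · rintro ⟨Φ, h1, rfl⟩
    have h2 : REPred fun n : ℕ => ∃ u : ℕ, (n, u) ∈ Φ ∧ u = 0 := by
      refine RE.exN (p := fun n u : ℕ => (n, u) ∈ Φ ∧ u = 0) (RE.and h1 ?_)
      exact RE.eq Computable.snd (Computable.const 0)
    refine h2.of_eq fun n => ?_
    constructor
    · rintro ⟨u, hu, rfl⟩
      exact ⟨0, hu, fun i hi => by simp [D] at hi⟩
    · rintro ⟨u, hu, hD⟩
      refine ⟨u, hu, ?_⟩
      apply Nat.eq_of_testBit_eq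
      intro i
      rw [Nat.zero_testBit]
      by_contra h
      rw [Bool.not_eq_false] at h
      exact hD (a := i) h
  · intro hce
    refine ⟨{p | p.1 ∈ A}, RE.comp hce Computable.fst, ?_⟩
    ext n
    constructor
    · intro hn
      exact ⟨0, hn, fun i hi => by simp [D] at hi⟩
    · rintro ⟨u, hu, -⟩
      exact hu

theorem ered_join_of {A B C : Set ℕ} (h : ERed A B) : ERed A (join B C) := by
  obtain ⟨Φ, h1, rfl⟩ := h
  refine ⟨{p | ∃ u, (p.1, u) ∈ Φ ∧ D u ⊆ {i | 2 * i ∈ D p.2}}, ?_, ?_⟩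
  · refine RE.exN (p := fun (p : ℕ × ℕ) (u : ℕ) => (p.1, u) ∈ Φ ∧
      D u ⊆ {i | 2 * i ∈ D p.2}) (RE.and ?_ ?_)
    · exact RE.comp (p := fun p : ℕ × ℕ => p ∈ Φ)
        (f := fun z : (ℕ × ℕ) × ℕ => (z.1.1, z.2)) h1
        ((Computable.fst.comp Computable.fst).pair Computable.snd)
    · have h2 : REPred fun r : (ℕ × ℕ) × ℕ => ∀ q < r.2, (r.2.testBit q = false ∨
          r.1.2.testBit (2 * q) = true) := by
        refine RE.all_lt (p := fun (r : (ℕ × ℕ) × ℕ) (q : ℕ) => (r.2.testBit q = false ∨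
          r.1.2.testBit (2 * q) = true)) (RE.or ?_ ?_) Computable.snd
        · exact RE.eq (comp_testBit (Computable.snd.comp Computable.fst) Computable.snd)
            (Computable.const false)
        · exact RE.eq (comp_testBit (Computable.snd.comp (Computable.fst.comp Computable.fst))
            ((Primrec.nat_mul.comp (Primrec.const 2) Primrec.id).to_comp.comp Computable.snd))
            (Computable.const true)
      refine h2.of_eq fun r => ?_
      constructor
      · intro h q hq
        rcases h q (D_bound hq) with h3 | h3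
        · have h4 : r.2.testBit q = true := hq
          rw [h3] at h4
          exact absurd h4 (by simp)
        · exact h3
      · intro h q _
        by_cases hb : r.2.testBit q = true
        · exact Or.inr (h hb)
        · left
          simpa using hb
  · ext n
    constructor
    · rintro ⟨u, hu, hD⟩
      have hfu : (D u).Finite := (Set.finite_Iio u).subset fun i hi => D_bound hi
      obtain ⟨a, ha⟩ := exists_index (hfu.image fun i => 2 * i)
      refine ⟨a, ⟨u, hu, fun i hi => ?_⟩, ?_⟩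
      · show 2 * i ∈ D a
        rw [ha]
        exact ⟨i, hi, rfl⟩
      · rw [ha]
        rintro _ ⟨i, hi, rfl⟩
        exact join_even.2 (hD hi)
    · rintro ⟨a, ⟨u, hu, hD⟩, ha⟩
      exact ⟨u, hu, fun i hi => join_even.1 (ha (hD hi))⟩

/-- **Quasi-minimal covers in the power of the Golomb space, for all iterated Urysohn spaces.** For
every sequence `Y` of represented iterated Urysohn spaces and every sequence `B` of sets of natural
numbers, comeager many points of the Hausdorff space `G` (with respect to the product topology of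
the discrete spaces) have a coded neighbourhood filter which is a `Y n`-quasi-minimal cover of `B m`
for all `n` and `m`. With `B = ∅` this answers Q1 for countably many spaces simultaneously. -/
theorem result :
    -- the power of the Golomb space is a Hausdorff space
    @T2Space (ℕ → ℕ) (generateFrom (Set.range sub)) ∧
    -- comeager many points, hence continuum many, are quasi-minimal covers
    (∀ (Y : ℕ → Type u) (γ : ∀ n, ℕ → Set (Y n)),
      (∀ n, IterUrysohn (generateFrom (Set.range (γ n))) Set.univ) → ∀ B : ℕ → Set ℕ,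
        {x : ℕ → ℕ | ∀ n m, QuasiMinimalOver (γ n) (B m) (Nbase sub x)} ∈ residual (ℕ → ℕ) ∧
        Cardinal.mk {x : ℕ → ℕ | ∀ n m, QuasiMinimalOver (γ n) (B m) (Nbase sub x)} =
          Cardinal.continuum) ∧
    -- in particular the answer to Q1, for countably many Urysohn spaces simultaneously
    (∀ (Y : ℕ → Type u) (γ : ∀ n, ℕ → Set (Y n)),
      (∀ n, @T25Space (Y n) (generateFrom (Set.range (γ n)))) →
        ∃ x : ℕ → ℕ, ∀ n, QuasiMinimal (γ n) (Nbase sub x)) ∧
    -- the spaces which are covered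
    (∀ (Y : Type u) (t : TopologicalSpace Y), @T25Space Y t → IterUrysohn t Set.univ) ∧
    (∀ (Y : Type u) (t : TopologicalSpace Y) (n : ℕ),
      (∀ y : Fin n → Y, Function.Injective y → ∃ U : Fin n → Set Y,
        (∀ i, IsOpen[t] (U i) ∧ y i ∈ U i) ∧ ⋂ i, closure[t] (U i) = ∅) →
          IterUrysohn t Set.univ) ∧
    -- the power of the Golomb space itself is not covered
    ¬ IterUrysohn (generateFrom (Set.range sub)) Set.univ := by
  have hmain : ∀ (Y : ℕ → Type u) (γ : ∀ n, ℕ → Set (Y n)),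
      (∀ n, IterUrysohn (generateFrom (Set.range (γ n))) Set.univ) → ∀ B : ℕ → Set ℕ,
        {x : ℕ → ℕ | ∀ n m, QuasiMinimalOver (γ n) (B m) (Nbase sub x)} ∈ residual (ℕ → ℕ) := by
    intro Y γ hY B
    have h1 : (⋂ n : ℕ, ⋂ m : ℕ, {x : ℕ → ℕ | QuasiMinimalOver (γ n) (B m) (Nbase sub x)}) ∈
        residual (ℕ → ℕ) :=
      countable_iInter_mem.2 fun n => countable_iInter_mem.2 fun m =>
        over_residual (γ n) (hY n) (B m)
    refine mem_of_superset h1 fun x hx n m => ?_
    exact Set.mem_iInter.1 (Set.mem_iInter.1 hx n) m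
  have hce : ∀ (Y : Type u) (γ : ℕ → Set Y) (x : ℕ → ℕ),
      QuasiMinimalOver γ ∅ (Nbase sub x) → QuasiMinimal γ (Nbase sub x) := by
    intro Y γ x h
    exact ⟨fun h1 => h.1 (ce_iff.2 h1), fun y hy => ce_iff.1 (h.2 y (ered_join_of hy))⟩
  refine ⟨t2, fun Y γ hY B => ⟨hmain Y γ hY B, card_residual (hmain Y γ hY B)⟩, ?_,
    fun Y t hY => iterUrysohn_of_t25 t hY, fun Y t n h => iterUrysohn_of_number t n h _, ?_⟩
  · intro Y γ hY
    obtain ⟨x, hx⟩ := (dense_of_mem_residual (hmain Y γ (fun n => iterUrysohn_of_t25 _ (hY n))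
      fun _ => ∅)).nonempty
    exact ⟨x, fun n => hce _ _ _ (hx n 0)⟩
  · intro h
    obtain ⟨x, hx⟩ := (dense_of_mem_residual (over_residual sub h ∅)).nonempty
    refine hx.1 (hx.2 x ?_)
    refine ered_join_of ⟨{p | p.2 = 2 ^ p.1}, ?_, ?_⟩
    · exact RE.eq Computable.snd (comp_two_pow Computable.fst)
    · have hD : ∀ n : ℕ, D (2 ^ n) = {n} := fun n => by
        ext i
        simp only [D, Set.mem_ofPred_eq, Nat.testBit_two_pow, decide_eq_true_eq,
          Set.mem_singleton_iff]
        exact eq_comm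
      ext n
      constructor
      · intro hn
        refine ⟨2 ^ n, rfl, ?_⟩
        rw [hD]
        exact Set.singleton_subset_iff.2 hn
      · rintro ⟨u, hu, h1⟩
        have hu' : u = 2 ^ n := hu
        rw [hu', hD] at h1
        exact Set.singleton_subset_iff.1 h1

end Pool.Agent.Results.MP_4f977f_lc.IteratedUrysohn
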